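import Pool.Agent.Lib.MP_d41870_lc.POne
import Pool.Agent.Lib.MP_d41870_lc.HM.Fi

/-!
# MP_d41870_lc, Q1 is independent of ZFC

(b) There is a model of ZFC in which every `(> ℵ₀)`-chromatic graph splits to two parts, and
(a) there is a model of ZFC in which some `(> ℵ₀)`-chromatic graph does not split to two parts.
No large cardinal is used.
-/

set_option autoImplicit false

namespace Pool.Agent.Results.MP_d41870_lc.Independence

open Pool.Agent.Lib.MP_d41870_lc.Forc Pool.Agent.Lib.MP_d41870_lc.Pos

/-- Q1 is independent of ZFC: there is a model `(M, E)` of ZFC in which every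
`(> ℵ₀)`-chromatic graph splits to two parts, and there is a model `(M, E)` of ZFC with a
`(> ℵ₀)`-chromatic graph that does not split to two parts. -/
theorem result :
    (∃ (M : Type 1) (E : M → M → Prop), MP9708F.ModelsZFC E ∧
      ∀ h H : M, IsGraph E h H → UncountablyChromatic E h H → SplitsToTwo E h H) ∧
    ∃ (M : Type 1) (E : M → M → Prop), MP9708F.ModelsZFC E ∧
      ∃ h H : M, IsGraph E h H ∧ UncountablyChromatic E h H ∧ ¬ SplitsToTwo E h H :=
  ⟨exists_model_all_split_one, Pool.Agent.Lib.MP_d41870_lc.HM.exists_nonsplitting⟩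

end Pool.Agent.Results.MP_d41870_lc.Independence
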