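import Pool.Agent.Lib.MP_d41870_lc.Main

set_option autoImplicit false

namespace Pool.Agent.Results.MP_d41870_lc.SplittingBelowMahlo

open Cardinal Pool.Agent.Lib.MP_d41870_lc

universe u

/-- Let `δ ≥ 1` be a (finite or infinite) cardinal. A graph whose chromatic number is greater
than `2 ^ max ℵ₀ (2 ^ δ)` splits to `δ` parts, unless there is a Mahlo cardinal `κ` with
`2 ^ δ < κ ≤ Chr(G)`. In particular, below the first Mahlo cardinal, every graph of chromatic
number greater than the continuum splits to two parts, and every graph of chromatic number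
greater than `2 ^ 2 ^ ℵ₁` splits to `ℵ₁` parts. -/
theorem result :
    (∀ (δ : Cardinal.{u}), 1 ≤ δ → ∀ {V : Type u} (G : SimpleGraph V),
      2 ^ max ℵ₀ (2 ^ δ) < chr G →
      (∀ κ : Cardinal.{u}, IsMahlo κ → 2 ^ δ < κ → chr G < κ) → SplitsTo G δ) ∧
    (∀ {V : Type u} (G : SimpleGraph V), (2 : Cardinal.{u}) ^ (ℵ₀ : Cardinal.{u}) < chr G →
      (∀ κ : Cardinal.{u}, IsMahlo κ → chr G < κ) → SplitsTo G 2) ∧
    (∀ {V : Type u} (G : SimpleGraph V),
      (2 : Cardinal.{u}) ^ ((2 : Cardinal.{u}) ^ (ℵ₁ : Cardinal.{u})) < chr G →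
      (∀ κ : Cardinal.{u}, IsMahlo κ → chr G < κ) → SplitsTo G ℵ₁) := by
  have main : ∀ (δ : Cardinal.{u}), 1 ≤ δ → ∀ {V : Type u} (G : SimpleGraph V),
      2 ^ max ℵ₀ (2 ^ δ) < chr G →
      (∀ κ : Cardinal.{u}, IsMahlo κ → 2 ^ δ < κ → chr G < κ) → SplitsTo G δ := by
    intro δ hδ V G hG hM
    by_contra hns
    obtain ⟨κ, hκ, h1, h2⟩ := exists_mahlo (Cardinal.one_le_iff_ne_zero.1 hδ) hns hG
    exact absurd (hM κ hκ ((le_max_right _ _).trans_lt h1)) (not_lt.2 h2)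
  refine ⟨main, fun {V} G hG hM => ?_, fun {V} G hG hM => ?_⟩
  · refine main 2 (by exact_mod_cast one_le_two) G ?_ fun κ hκ _ => hM κ hκ
    have : max ℵ₀ ((2 : Cardinal.{u}) ^ (2 : Cardinal.{u})) = ℵ₀ := by
      apply max_eq_left
      exact (power_lt_aleph0 (natCast_lt_aleph0 (n := 2)) (natCast_lt_aleph0 (n := 2))).le
    rwa [this]
  · refine main ℵ₁ ?_ G ?_ fun κ hκ _ => hM κ hκ
    · exact one_le_aleph0.trans (aleph0_le_aleph 1)
    · have : max ℵ₀ ((2 : Cardinal.{u}) ^ (ℵ₁ : Cardinal.{u})) = 2 ^ (ℵ₁ : Cardinal.{u}) := by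
        apply max_eq_right
        exact (aleph0_le_aleph 1).trans (cantor _).le
      rwa [this]

end Pool.Agent.Results.MP_d41870_lc.SplittingBelowMahlo
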